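import Pool.Agent.Y825.KS.Shadow

/-!
# Rooted tight trees: the cost inequality of the starting library for a prescribed root

`Pool.Agent.Y825.KS.cost` is the averaged inequality behind the proof of Kalai's conjecture. Here the
ordered root facet is prescribed, and the embeddings are turned into copies with prescribed root.
-/

set_option autoImplicit false

namespace Pool.Agent.Helper11X.KR

open Finset ES903 H223R3.Kalai H223R3.Kalai.HT

/-- Every tight tree is the edge set of a good rooted tree with a prescribed ordered root in its first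
edge. -/
theorem exists_HT_root {W : Type*} [DecidableEq W] {d : ℕ} (e : ℕ → Finset W) (t : ℕ)
    (h0 : (e 0).card = d + 1)
    (hstep : ∀ i, 0 < i → i < t → ∃ j, j < i ∧ ∃ S : Finset W, S ⊆ e j ∧ S.card = d ∧
      ∃ v : W, v ∉ (Finset.range i).biUnion e ∧ e i = insert v S)
    (a : Fin d → W) (ha1 : Function.Injective a) (hae : ∀ j, a j ∈ e 0) :
    ∀ m, m + 1 ≤ t → ∃ T : HT W d, T.Good ∧ T.root = a ∧ T.size = m + 1 ∧
      T.edges = (Finset.range (m + 1)).image e ∧
      T.nv ∪ univ.image T.root = (Finset.range (m + 1)).biUnion e := by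
  intro m
  induction m with
  | zero =>
    intro _
    have hsub : univ.image a ⊆ e 0 := by
      intro z hz
      obtain ⟨j, _, rfl⟩ := Finset.mem_image.1 hz
      exact hae j
    have hca : (univ.image a).card = d := by
      rw [Finset.card_image_of_injective _ ha1, Finset.card_univ, Fintype.card_fin]
    have h1 : (e 0 \ univ.image a).card = 1 := by
      rw [Finset.card_sdiff_of_subset hsub, h0, hca]
      omega
    obtain ⟨y, hy⟩ := Finset.card_eq_one.1 h1
    have hy1 : y ∈ e 0 \ univ.image a := by rw [hy]; exact Finset.mem_singleton_self y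
    have hy2 : y ∉ univ.image a := (Finset.mem_sdiff.1 hy1).2
    have he0 : insert y (univ.image a) = e 0 := by
      apply Finset.eq_of_subset_of_card_le
      · intro z hz
        rcases Finset.mem_insert.1 hz with h | h
        · rw [h]; exact (Finset.mem_sdiff.1 hy1).1
        · exact hsub h
      · rw [Finset.card_insert_of_notMem hy2, hca, h0]
    have hext := addRoot_ext y (node a) trivial
      (by show y ∉ univ.image a; exact hy2) (by simp [nv])
    obtain ⟨c1, c2, c3, c4, c5⟩ := hext
    refine ⟨(node a).addRoot y, c1, c2, ?_, ?_, ?_⟩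
    · rw [c3]; rfl
    · rw [c4]
      show insert (insert y (univ.image a)) ∅ = _
      rw [he0]
      simp
    · rw [c5, c2]
      show insert y ∅ ∪ univ.image a = _
      rw [Finset.insert_union, Finset.empty_union, he0]
      simp
  | succ m ih =>
    intro hm
    obtain ⟨T, t1, t2, t3, t4, t5⟩ := ih (by omega)
    obtain ⟨j, hj, S, hSj, hSc, v, hv, hev⟩ := hstep (m + 1) (by omega) (by omega)
    have hE : e j ∈ T.edges := by
      rw [t4]; exact Finset.mem_image_of_mem _ (Finset.mem_range.2 hj)
    rw [← t5] at hv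
    obtain ⟨T', c1, c2, c3, c4, c5⟩ := exists_ext v S hSc (e j) hSj T t1 (by rw [t2]; exact ha1) hE
      (fun h => hv (Finset.mem_union_left _ h)) (fun h => hv (Finset.mem_union_right _ h))
    refine ⟨T', c1, ?_, ?_, ?_, ?_⟩
    · rw [c2]; exact t2
    · rw [c3, t3]
    · have h1 : (Finset.range (m + 1 + 1)).image e =
          insert (e (m + 1)) ((Finset.range (m + 1)).image e) := by
        rw [Finset.range_add_one (n := m + 1), Finset.image_insert]
      rw [c4, t4, ← hev, h1]
    · rw [c5, c2, Finset.insert_union, t5]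
      have h1 : (Finset.range (m + 1 + 1)).biUnion e =
          e (m + 1) ∪ (Finset.range (m + 1)).biUnion e := by
        rw [Finset.range_add_one (n := m + 1), Finset.biUnion_insert]
      rw [h1, hev, Finset.insert_union]
      have h2 : S ⊆ (Finset.range (m + 1)).biUnion e :=
        hSj.trans (Finset.subset_biUnion_of_mem e (Finset.mem_range.2 hj))
      rw [Finset.union_eq_right.2 h2]

/-- a copy of the tree with the root at `u` and the other vertices in `S` -/
def RootedIn {V W : Type*} [DecidableEq V] {d : ℕ} (H : Finset (Finset V)) (t : ℕ)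
    (e : ℕ → Finset W) (a : Fin d → W) (u : Fin d → V) (S : Finset V) : Prop :=
  ∃ f : W → V, Set.InjOn f {x : W | ∃ i, i < t ∧ x ∈ e i} ∧ (∀ i, i < t → (e i).image f ∈ H) ∧
    (∀ j, f (a j) = u j) ∧ ∀ x, (∃ i, i < t ∧ x ∈ e i) → (∀ j, x ≠ a j) → f x ∈ S

theorem rooted_cost {V W : Type*} [DecidableEq V] [Fintype V] [Nonempty V] [DecidableEq W] {d : ℕ}
    (e : ℕ → Finset W) (t : ℕ) (ht : 1 ≤ t) (h0 : (e 0).card = d + 1)
    (hstep : ∀ i, 0 < i → i < t → ∃ j, j < i ∧ ∃ S : Finset W, S ⊆ e j ∧ S.card = d ∧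
      ∃ v : W, v ∉ (Finset.range i).biUnion e ∧ e i = insert v S)
    (a : Fin d → W) (ha1 : Function.Injective a) (hae : ∀ j, a j ∈ e 0)
    (H : Finset (Finset V)) (hH : ∀ h ∈ H, h.card = d + 1) :
    ∑ u ∈ Pool.Agent.Y825.KS.Sh H d, (((Nb H u).card : ℚ) + 1) *
        E univ (Fail (RootedIn H t e a u)) ≤
      (t : ℚ) * (((Pool.Agent.Y825.KS.Sh H d).card : ℚ) * ((Fintype.card V : ℚ) + 1)) := by
  obtain ⟨T, t1, t2, t3, t4, t5⟩ := exists_HT_root e t h0 hstep a ha1 hae (t - 1) (by omega)
  have ht' : t - 1 + 1 = t := by omega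
  rw [ht'] at t3 t4 t5
  have hc := Pool.Agent.Y825.KS.cost H hH T
  rw [t3] at hc
  refine le_trans (Finset.sum_le_sum fun u hu => ?_) hc
  refine mul_le_mul_of_nonneg_left ?_ (by positivity)
  apply E_mono
  intro S _
  apply Fail_mono
  intro hE
  have hu1 := ((Pool.Agent.Y825.KS.mem_Sh H u).1 hu).1
  obtain ⟨f, f1, f2, f3, f4⟩ := HT.extract H hH T t1 (by rw [t2]; exact ha1) u S hE
  have hmem : ∀ x, (∃ i, i < t ∧ x ∈ e i) → x ∈ T.nv ∨ ∃ j, a j = x := by
    rintro x ⟨i, hi, hx⟩
    have h1 : x ∈ T.nv ∪ univ.image T.root := by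
      rw [t5]
      exact Finset.mem_biUnion.2 ⟨i, Finset.mem_range.2 hi, hx⟩
    rcases Finset.mem_union.1 h1 with h | h
    · exact Or.inl h
    · rw [t2] at h
      obtain ⟨j, _, hj⟩ := Finset.mem_image.1 h
      exact Or.inr ⟨j, hj⟩
  rw [t2] at f1
  refine ⟨f, ?_, ?_, f1, ?_⟩
  · intro x hx y hy hxy
    rcases hmem x hx with hx | ⟨i, rfl⟩
    · rcases hmem y hy with hy | ⟨j, rfl⟩
      · exact f2 (by exact_mod_cast hx) (by exact_mod_cast hy) hxy
      · rw [f1] at hxy
        exact absurd (Finset.mem_image.2 ⟨j, Finset.mem_univ _, hxy.symm⟩) (f3 x hx).2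
    · rcases hmem y hy with hy | ⟨j, rfl⟩
      · rw [f1] at hxy
        exact absurd (Finset.mem_image.2 ⟨i, Finset.mem_univ _, hxy⟩) (f3 y hy).2
      · rw [f1, f1] at hxy
        rw [hu1 hxy]
  · intro i hi
    apply f4
    rw [t4]
    exact Finset.mem_image_of_mem _ (Finset.mem_range.2 hi)
  · intro x hx hxa
    rcases hmem x hx with hx | ⟨j, hj⟩
    · exact (f3 x hx).1
    · exact absurd hj.symm (hxa j)

end Pool.Agent.Helper11X.KR
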